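import Mathlib

set_option autoImplicit false
open Finset

namespace Pool.Agent.Results.MP_9fbb3c_co.Cex

def IsSymBIBD (v k : ℕ) (B : Fin v → Finset (Fin v)) : Prop :=
  2 ≤ k ∧ k < v ∧ (∀ i, (B i).card = k) ∧ ∃ lam : ℕ, 0 < lam ∧
    ∀ x y : Fin v, x ≠ y → (univ.filter fun i => x ∈ B i ∧ y ∈ B i).card = lam

def IsULSE {v : ℕ} (k l : ℕ) (B : Fin v → Finset (Fin v)) (f : Fin v → Fin l) : Prop :=
  Function.Surjective f ∧ (l - 1) ∣ k ∧ ∀ i, ∃ c : Fin l, (∀ x ∈ B i, f x ≠ c) ∧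
    ∀ d, d ≠ c → ((B i).filter fun x => f x = d).card = k / (l - 1)

private def blk (i : Fin 16) : Finset (Fin 16) :=
  univ.filter fun x => ¬ (x ≠ i ∧ (x.1 / 4 = i.1 / 4 ∨ x.1 % 4 = i.1 % 4))

private theorem count {v lam : ℕ} {B : Fin v → Finset (Fin v)}
    (h : ∀ x y : Fin v, x ≠ y → (univ.filter fun i => x ∈ B i ∧ y ∈ B i).card = lam)
    (x : Fin v) (T : Finset (Fin v)) (hx : x ∉ T) (m : ℕ)
    (hm : ∀ i, x ∈ B i → (T.filter (· ∈ B i)).card = m) :
    (univ.filter fun i => x ∈ B i).card * m = T.card * lam := by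
  refine card_mul_eq_card_mul (fun i y => y ∈ B i) (fun i hi => hm i (mem_filter.1 hi).2)
    fun y hy => ?_
  rw [← h x y (fun e => hx (e ▸ hy)), bipartiteBelow, filter_filter]

theorem result : ∃ v k l : ℕ, 0 < v ∧ 0 < k ∧ 0 < l ∧
    (v : ℚ) = l * (l - 2) * k / ((l - 1) ^ 2 - k) ∧ (∃ B, IsSymBIBD v k B) ∧
    ¬ ∃ (B : Fin v → Finset (Fin v)) (f : Fin v → Fin l), IsSymBIBD v k B ∧ IsULSE k l B f := by
  refine ⟨16, 10, 6, by norm_num, by norm_num, by norm_num, by norm_num,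
    ⟨blk, by norm_num, by norm_num, by decide +kernel, 6, by norm_num, by decide +kernel⟩, ?_⟩
  rintro ⟨B, f, ⟨-, -, hk, lam, hl, h⟩, -, -, hf⟩
  have a := count h 0 (univ.erase 0) (by simp) 9 fun i hi => by
    rw [show (univ.erase 0).filter (· ∈ B i) = (B i).erase 0 by ext; simp,
      card_erase_of_mem hi, hk]
  have b := count h 0 ((univ.filter fun y => f y = f 0).erase 0) (by simp) 1 fun i hi => by
    obtain ⟨c, h1, h2⟩ := hf i
    rw [show ((univ.filter fun y => f y = f 0).erase 0).filter (· ∈ B i) =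
      ((B i).filter fun x => f x = f 0).erase 0 by ext; simp; tauto,
      card_erase_of_mem (by simp [hi]), h2 _ (h1 0 hi)]
  rw [card_erase_of_mem (mem_univ _), card_univ, Fintype.card_fin] at a
  rw [mul_one] at b
  rw [b, mul_right_comm] at a
  have := Nat.eq_of_mul_eq_mul_right hl a
  omega

end Pool.Agent.Results.MP_9fbb3c_co.Cex
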